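import Pool.Agent.Lib.MP_9d9c13_pr.Sum

/-! Block by block decoupling of the powers of a linear functional of the diagonal blocks in the
triangular model of the Wishart law. -/

open MeasureTheory ProbabilityTheory Matrix Set Filter Topology
open scoped ENNReal NNReal
open Pool.Agent.Lib.MP_9d9c13_pr

namespace Pool.Agent.FS.WishTr

noncomputable section

section Blk

variable {B ι κ : Type} [Fintype B] [Fintype ι] [Fintype κ]
  (act : ι → Prop) [DecidablePred act] (R : Matrix κ B ℝ)

/-- the trace of the block, a bilinear function of the two factors -/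
def bil (t : B × ι → ℝ) (z : ι × κ → ℝ) : ℝ :=
  ∑ a, ∑ c, (if act c then t (a, c) else 0) * ∑ j, z (c, j) * R j a

lemma bil_eq (t : B × ι → ℝ) (z : ι × κ → ℝ) :
    (msk act (mat t) * mat z * R).trace = bil act R t z := by
  rw [Matrix.mul_assoc]
  simp only [bil, trace, diag, mul_apply, msk, of_apply, mat_apply]

lemma bil_right (t : B × ι → ℝ) : IsLinearMap ℝ (bil act R t) := by
  constructor
  · intro x y
    simp only [bil, Pi.add_apply, add_mul, mul_add, Finset.sum_add_distrib]
  · intro c x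
    simp only [bil, Pi.smul_apply, smul_eq_mul, Finset.mul_sum]
    exact Finset.sum_congr rfl fun _ _ => Finset.sum_congr rfl fun _ _ =>
      Finset.sum_congr rfl fun _ _ => by ring

lemma bil_left (z : ι × κ → ℝ) : IsLinearMap ℝ fun t => bil act R t z := by
  constructor
  · intro x y
    simp only [bil, ← Finset.sum_add_distrib]
    refine Finset.sum_congr rfl fun _ _ => Finset.sum_congr rfl fun _ _ => ?_
    split_ifs
    · rw [Pi.add_apply, add_mul]
    · simp
  · intro c x
    simp only [bil, smul_eq_mul]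
    rw [Finset.mul_sum]
    refine Finset.sum_congr rfl fun _ _ => ?_
    rw [Finset.mul_sum]
    refine Finset.sum_congr rfl fun _ _ => ?_
    split_ifs
    · rw [Pi.smul_apply, smul_eq_mul, mul_assoc]
    · simp

lemma pw_lin {η : Type} (P : η → Prop) [DecidablePred P] :
    IsLinearMap ℝ fun w : η → ℝ => pw P w 0 := by
  constructor
  · intro x y; ext q; simp only [pw, Pi.add_apply]; split_ifs <;> simp
  · intro c x; ext q; simp only [pw, Pi.smul_apply]; split_ifs <;> simp

@[fun_prop]
lemma measurable_bil {A : Type*} [MeasurableSpace A] {t : A → B × ι → ℝ} {z : A → ι × κ → ℝ}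
    (ht : Measurable t) (hz : Measurable z) : Measurable fun a => bil act R (t a) (z a) := by
  unfold bil
  refine Finset.measurable_sum _ fun a _ => Finset.measurable_sum _ fun c _ =>
    Measurable.mul ?_ (Finset.measurable_sum _ fun j _ =>
      ((measurable_pi_apply _).comp hz).mul_const _)
  split_ifs
  · exact (measurable_pi_apply _).comp ht
  · exact measurable_const

variable {D : Type} [DecidableEq D] (lab : ι → D)

lemma bil_split {k : D} {O : Finset D} (hk : k ∉ O) (t t' : B × ι → ℝ) (y w x : ι × κ → ℝ) :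
    bil act R (pw (fun q : B × ι => ¬ (lab q.2 = k ∨ lab q.2 ∈ O)) t' t)
      (pw (fun q : ι × κ => lab q.1 ∈ O) y (pw (fun q : ι × κ => lab q.1 = k) w x))
    = bil act R t (pw (fun q : ι × κ => lab q.1 = k) w 0)
      + bil act R t (pw (fun q : ι × κ => lab q.1 ∈ O) y 0)
      + bil act R (pw (fun q : B × ι => ¬ (lab q.2 = k ∨ lab q.2 ∈ O)) t' 0) x := by
  simp only [bil, ← Finset.sum_add_distrib]
  refine Finset.sum_congr rfl fun a _ => Finset.sum_congr rfl fun c _ => ?_
  by_cases h1 : lab c = k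
  · simp [pw, h1, hk]
  · by_cases h2 : lab c ∈ O <;> simp [pw, h1, h2]

variable [DecidableEq B] (e : B → ι) (γ s : ℝ)

/-- the weight -/
def wt (t : B × ι → ℝ) : ℝ≥0∞ := apow γ ((mat t).submatrix id e).det

omit [Fintype ι] in
@[fun_prop]
lemma measurable_wt {A : Type*} [MeasurableSpace A] {t : A → B × ι → ℝ} (ht : Measurable t) :
    Measurable fun a => wt e γ (t a) := by
  have h : Measurable fun t : B × ι → ℝ => ((mat t).submatrix id e).det := by
    have : ((fun t : B × ι → ℝ => ((mat t).submatrix id e).det))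
        = (fun u : B × B → ℝ => (mat u).det) ∘ fun t q => t (q.1, e q.2) := rfl
    rw [this]
    exact (Continuous.measurable (by fun_prop)).comp
      (measurable_pi_iff.2 fun q => measurable_pi_apply _)
  exact measurable_apow γ (h.comp ht)

/-- the weighted power of the trace, averaged over the triangular factor -/
def Ftr (z : ι × κ → ℝ) : ℝ≥0∞ := ∫⁻ t, wt e γ t * apow s (bil act R t z) ∂gam (B × ι)

lemma measurable_Ftr : Measurable (Ftr act R e γ s) := by
  have : Measurable fun q : (ι × κ → ℝ) × (B × ι → ℝ) =>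
      wt e γ q.2 * apow s (bil act R q.2 q.1) := by fun_prop
  exact this.lintegral_prod_right'

lemma allowed_off {k : D} (hk : ∀ c, lab c = k → ¬ act c) (x : ι × κ → ℝ) :
    Allowed fun w => Ftr act R e γ s (pw (fun q : ι × κ => lab q.1 = k) w x) := by
  refine (Allowed.const (Ftr act R e γ s x)).congr fun w => lintegral_congr fun t => ?_
  congr 2
  refine Finset.sum_congr rfl fun a _ => Finset.sum_congr rfl fun c _ => ?_
  by_cases h : lab c = k
  · simp [hk c h]
  · simp [pw, h]

lemma allowed_on {s : ℝ} (hs : 0 ≤ s) {k : D} {O : Finset D} (hk : k ∉ O)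
    (he : ∀ b, lab (e b) = k ∨ lab (e b) ∈ O) (x : ι × κ → ℝ) :
    Allowed fun w => marg (fun q : ι × κ => lab q.1 ∈ O) (Ftr act R e γ s)
      (pw (fun q : ι × κ => lab q.1 = k) w x) := by
  have hm : Measurable fun q : (((B × ι → ℝ) × (ι × κ → ℝ)) × (ι × κ → ℝ)) × (B × ι → ℝ) =>
      wt e γ q.1.1.1 * apow s (bil act R q.1.1.1 (pw (fun q : ι × κ => lab q.1 = k) q.1.1.2 0)
        + bil act R q.1.1.1 (pw (fun q : ι × κ => lab q.1 ∈ O) q.1.2 0)
        + bil act R (pw (fun q : B × ι => ¬ (lab q.2 = k ∨ lab q.2 ∈ O)) q.2 0) x) := by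
    fun_prop
  have hF := (hm.lintegral_prod_right' (ν := gam (B × ι))).lintegral_prod_right'
    (ν := gam (ι × κ))
  refine (Allowed.mix' (gam (B × ι)) (F := fun t w => ∫⁻ y, ∫⁻ t', wt e γ t * apow s
    (bil act R t (pw (fun q : ι × κ => lab q.1 = k) w 0)
      + bil act R t (pw (fun q : ι × κ => lab q.1 ∈ O) y 0)
      + bil act R (pw (fun q : B × ι => ¬ (lab q.2 = k ∨ lab q.2 ∈ O)) t' 0) x)
      ∂gam (B × ι) ∂gam (ι × κ)) hF fun t => allowed_lin2_c (wt e γ t) hs
    (isLinear_comp (bil_right act R t) (pw_lin _)) (isLinear_comp (bil_right act R t) (pw_lin _))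
    (isLinear_comp (bil_left act R x) (pw_lin _))).congr fun w => ?_
  have hm2 : Measurable fun q : ((B × ι → ℝ) × (ι × κ → ℝ)) × (B × ι → ℝ) =>
      wt e γ q.1.1 * apow s (bil act R q.1.1 (pw (fun q : ι × κ => lab q.1 = k) w 0)
        + bil act R q.1.1 (pw (fun q : ι × κ => lab q.1 ∈ O) q.1.2 0)
        + bil act R (pw (fun q : B × ι => ¬ (lab q.2 = k ∨ lab q.2 ∈ O)) q.2 0) x) := by
    fun_prop
  rw [lintegral_lintegral_swap (hm2.lintegral_prod_right' (ν := gam (B × ι))).aemeasurable]
  refine lintegral_congr fun y => ?_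
  rw [Ftr, lintegral_pw (fun q : B × ι => ¬ (lab q.2 = k ∨ lab q.2 ∈ O)) (by fun_prop)]
  refine lintegral_congr fun t => lintegral_congr fun t' => ?_
  rw [bil_split act R lab hk]
  congr 1
  unfold wt
  congr 2
  ext a b
  simp [pw, he b]

end Blk

variable {p : ℕ} {D : Type} [Fintype D] [LinearOrder D]

lemma Ftr_decouple (blk : Fin p → D) (γ : D → ℝ)
    (R : ∀ i, Matrix (Fin p) {a // blk a = i} ℝ) {s : D → ℝ} (hs : ∀ i, 0 ≤ s i) :
    ∏ i, ∫⁻ z, Ftr (fun k => blk k ≤ i) (R i) Subtype.val (γ i) (s i) z ∂gam (Fin p × Fin p)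
      ≤ ∫⁻ z, ∏ i, Ftr (fun k => blk k ≤ i) (R i) Subtype.val (γ i) (s i) z
        ∂gam (Fin p × Fin p) := by
  refine decouple (fun q : Fin p × Fin p => blk q.1) id _
    (fun i => measurable_Ftr _ _ _ _ _) fun i k => ?_
  rcases lt_trichotomy k i with h | h | h
  · refine ⟨{i}, fun k' hk' => ?_, fun x => ?_⟩
    · rw [Finset.mem_singleton.1 hk']; exact h
    · exact allowed_on _ _ blk _ _ (hs i) (by simpa using h.ne)
        (fun b => Or.inr (Finset.mem_singleton.2 b.2)) x
  · exact ⟨∅, by simp, fun x => allowed_on _ _ blk _ _ (hs i) (by simp)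
      (fun b => Or.inl (b.2.trans h.symm)) x⟩
  · refine ⟨∅, by simp, fun x => ?_⟩
    refine (allowed_off (fun c => blk c ≤ i) (R i) blk Subtype.val (γ i) (s i) (k := k)
      (fun c hc => not_le.2 (hc ▸ h)) x).congr fun w => ?_
    have : ∀ y u : Fin p × Fin p → ℝ,
        pw (fun q : Fin p × Fin p => blk q.1 ∈ (∅ : Finset D)) y u = u := fun y u => by
      ext q; simp [pw]
    simp [marg, this]

end

end Pool.Agent.FS.WishTr
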