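import Pool.Agent.FS.WishTr.Dec

/-! The product inequality for weighted traces of the diagonal blocks of a Wishart matrix. -/

open MeasureTheory ProbabilityTheory Matrix Set Filter Topology
open scoped ENNReal NNReal
open Pool.Agent.Lib.MP_9d9c13_pr

namespace Pool.Agent.FS.WishTr

noncomputable section

lemma gmom_ne_zero (s : ℝ) : gmom s ≠ 0 := by
  intro h
  rw [gmom, lintegral_eq_zero_iff (by fun_prop)] at h
  have hns := nullSingletonClass_gaussianReal (μ := 0) (v := 1) one_ne_zero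
  have hae : ∀ᵐ g ∂gaussianReal 0 1, g ≠ 0 := by
    rw [ae_iff]; simp
  have h2 : ∀ᵐ g ∂gaussianReal 0 1, False := by
    filter_upwards [h, hae] with t ht h0
    rw [apow_eq_ofReal (Or.inl h0)] at ht
    simp only [Pi.zero_apply, ENNReal.ofReal_eq_zero] at ht
    exact absurd ht (not_le.2 (Real.rpow_pos_of_pos (abs_pos.2 h0) _))
  simp [NeZero.ne] at h2

lemma gauss_trace {B ι : Type} [Fintype B] [Fintype ι] (P : Matrix ι B ℝ) (C : Matrix B B ℝ)
    {ν : ℝ} (hν : 0 ≤ ν) :
    ∫⁻ n, apow (2 * ν) (mat n * P * Cᵀ).trace ∂gam (B × ι)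
      = gmom (2 * ν) * ENNReal.ofReal ((Cᵀ * C * (Pᵀ * P)).trace ^ ν) := by
  have h1 : ∀ n : B × ι → ℝ, (mat n * P * Cᵀ).trace = Lib.MP_9d9c13_pr.vec (P * Cᵀ)ᵀ ⬝ᵥ n := fun n => by
    rw [dot_eq_trace, mat_vec, transpose_transpose, Matrix.mul_assoc, trace_mul_comm]
  have h2 : Lib.MP_9d9c13_pr.vec (P * Cᵀ)ᵀ ⬝ᵥ Lib.MP_9d9c13_pr.vec (P * Cᵀ)ᵀ
      = (Cᵀ * C * (Pᵀ * P)).trace := by
    rw [vec_dot_vec, transpose_transpose, transpose_mul, transpose_transpose, Matrix.mul_assoc,
      trace_mul_comm]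
    simp only [Matrix.mul_assoc]
  have h3 : 0 ≤ (Cᵀ * C * (Pᵀ * P)).trace := h2 ▸ dot_self_nonneg _
  simp_rw [h1]
  rw [lintegral_apow_dot, h2, mul_comm, apow_eq_ofReal (Or.inr (by linarith)),
    abs_of_nonneg (Real.sqrt_nonneg _), Real.sqrt_eq_rpow, ← Real.rpow_mul h3]
  congr 3
  ring

variable {p : ℕ} {D : Type} [Fintype D] [LinearOrder D]

theorem trace_lintegral {blk : Fin p → D} (hblk : Monotone blk) {α : ℝ}
    (hα : (p : ℝ) - 1 < α) {S : Matrix (Fin p) (Fin p) ℝ} (hS : S.PosDef) {ν : D → ℝ}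
    (hν : ∀ i, 0 ≤ ν i) {A : ∀ i, Matrix {a // blk a = i} {a // blk a = i} ℝ}
    (hA : ∀ i, (A i).PosSemidef) :
    ∏ i, ∫⁻ x, ENNReal.ofReal ((A i * sq blk i (symMat x)).trace ^ ν i) ∂wishart α S
      ≤ ∫⁻ x, ∏ i, ENNReal.ofReal ((A i * sq blk i (symMat x)).trace ^ ν i) ∂wishart α S := by
  obtain ⟨Q, hQ⟩ := exists_factor_psd hS.posSemidef
  choose C hC using fun i => exists_factor_psd (hA i)
  have hdec := Ftr_decouple blk (fun i => α - nle blk i)
    (fun i => Q.submatrix id Subtype.val * (C i)ᵀ) (s := fun i => 2 * ν i)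
    fun i => by linarith [hν i]
  have h := wishart_transfer hblk hα hS hQ
    (ψ := fun i y => apow (2 * ν i) (mat y * (C i)ᵀ).trace)
    (fun i => measurable_apow _ (Continuous.measurable (by fun_prop)))
    (Ψ := fun i x => gmom (2 * ν i)
      * ENNReal.ofReal ((A i * sq blk i (symMat x)).trace ^ ν i)) (fun i x hx P hP => ?_) ?_
  · have hm : ∀ i, Measurable fun x : Sym2 (Fin p) → ℝ =>
        ENNReal.ofReal ((A i * sq blk i (symMat x)).trace ^ ν i) := fun i => by
      have : Measurable fun x : Sym2 (Fin p) → ℝ => (A i * sq blk i (symMat x)).trace :=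
        Continuous.measurable (by fun_prop)
      fun_prop
    simp only [lintegral_const_mul _ (hm _), Finset.prod_mul_distrib] at h
    rwa [lintegral_const_mul _ (Finset.measurable_prod _ fun i _ => hm i),
      ENNReal.mul_le_mul_iff_right (Finset.prod_ne_zero_iff.2 fun j _ => gmom_ne_zero _)
      (ENNReal.prod_ne_top fun j _ => (gmom_lt_top (by linarith [hν j])).ne)] at h
  · have h1 : (P.submatrix id (Subtype.val : {a // blk a = i} → Fin p))ᵀ
        * P.submatrix id Subtype.val = sq blk i (symMat x) := by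
      rw [← hP]
      ext a b; simp [mul_apply]
    simp only [mat_vec]
    rw [gauss_trace _ _ (hν i), h1, hC i]
  · have h2 : ∀ i, FTG blk α Q i (fun y => apow (2 * ν i) (mat y * (C i)ᵀ).trace)
        = Ftr (fun k => blk k ≤ i) (Q.submatrix id Subtype.val * (C i)ᵀ) Subtype.val
          (α - nle blk i) (2 * ν i) := by
      intro i
      funext z
      refine lintegral_congr fun t => ?_
      simp only [mat_vec]
      rw [Matrix.mul_assoc, bil_eq]
      rfl
    simp only [h2]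
    exact hdec

lemma trace_nonneg' {B : Type} [Fintype B] [DecidableEq B] {A M : Matrix B B ℝ}
    (hA : A.PosSemidef) (hM : M.PosSemidef) : 0 ≤ (A * M).trace := by
  obtain ⟨C, rfl⟩ := exists_factor_psd hA
  rw [Matrix.mul_assoc, trace_mul_comm]
  have := (hM.mul_mul_conjTranspose_same C).trace_nonneg
  rwa [conjTranspose_eq_transpose_of_trivial] at this

lemma trace_le {B : Type} [Fintype B] (A : Matrix B B ℝ) (e : B → Fin p)
    {M : Matrix (Fin p) (Fin p) ℝ} (hM : M.PosSemidef) :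
    (A * M.submatrix e e).trace ≤ (∑ a, ∑ b, |A a b|) * M.trace := by
  simp only [Finset.sum_mul]
  rw [trace]
  refine Finset.sum_le_sum fun a _ => ?_
  rw [diag, mul_apply]
  refine Finset.sum_le_sum fun b _ => (le_abs_self _).trans ?_
  rw [abs_mul]
  exact mul_le_mul_of_nonneg_left (abs_entry_le_trace hM _ _) (abs_nonneg _)

omit [LinearOrder D] in
lemma joint_ne_top {α : ℝ} (hα : (p : ℝ) - 1 < α) {S : Matrix (Fin p) (Fin p) ℝ} (hS : S.PosDef)
    {ν : D → ℝ} (hν : ∀ i, 0 ≤ ν i) {f : D → (Sym2 (Fin p) → ℝ) → ℝ} {K : D → ℝ}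
    (hK : ∀ i, 0 ≤ K i) (h0 : ∀ x ∈ posCone p, ∀ i, 0 ≤ f i x)
    (h1 : ∀ x ∈ posCone p, ∀ i, f i x ≤ K i * (symMat x).trace) :
    ∫⁻ x, ∏ i, ENNReal.ofReal (f i x ^ ν i) ∂wishart α S ≠ ⊤ := by
  obtain ⟨r, hr, hP⟩ := exists_sub_smul_posDef hS.inv
  have hL := wishart_laplace_gen hα hS hP
  set N := Fintype.card D with hN
  choose C hC hle using fun i => exists_rpow_le_exp (ε := r / 2 / (N + 1)) (hν i) (by positivity)
  have hC' : ∀ i, 0 ≤ K i ^ ν i * C i := fun i =>
    mul_nonneg (Real.rpow_nonneg (hK i) _) (hC i).le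
  refine ne_top_of_le_ne_top (ENNReal.mul_ne_top
    (ENNReal.ofReal_ne_top (r := ∏ i, K i ^ ν i * C i)) (hL.trans_ne ENNReal.ofReal_ne_top)) ?_
  rw [← lintegral_const_mul' _ _ ENNReal.ofReal_ne_top]
  refine lintegral_mono_ae ((ae_wishart α S).mono fun x hx => ?_)
  have ht := (PosDef.posSemidef hx).trace_nonneg
  rw [← ENNReal.ofReal_prod_of_nonneg fun i _ => Real.rpow_nonneg (h0 x hx i) _,
    ← ENNReal.ofReal_mul (Finset.prod_nonneg fun i _ => hC' i)]
  refine ENNReal.ofReal_le_ofReal ?_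
  calc _ ≤ ∏ i, K i ^ ν i * C i * Real.exp (r / 2 / (N + 1) * (symMat x).trace) :=
        Finset.prod_le_prod (fun i _ => Real.rpow_nonneg (h0 x hx i) _) fun i _ => by
          refine (Real.rpow_le_rpow (h0 x hx i) (h1 x hx i) (hν i)).trans ?_
          rw [Real.mul_rpow (hK i) ht, mul_assoc]
          exact mul_le_mul_of_nonneg_left (hle i _ ht) (Real.rpow_nonneg (hK i) _)
    _ = (∏ i, K i ^ ν i * C i) * Real.exp (N * (r / 2 / (N + 1) * (symMat x).trace)) := by
        rw [Finset.prod_mul_distrib, Finset.prod_const, Finset.card_univ, Real.exp_nat_mul]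
    _ ≤ _ := by
        refine mul_le_mul_of_nonneg_left (Real.exp_le_exp.2 ?_)
          (Finset.prod_nonneg fun i _ => hC' i)
        rw [Matrix.smul_mul, Matrix.one_mul, trace_smul, smul_eq_mul]
        have h2 : (N : ℝ) * (r / 2 / (N + 1)) ≤ r / 2 := by
          rw [mul_div_assoc', div_le_iff₀ (by positivity)]
          nlinarith
        nlinarith

theorem trace_integral {blk : Fin p → D} (hblk : Monotone blk) {α : ℝ}
    (hα : (p : ℝ) - 1 < α) {S : Matrix (Fin p) (Fin p) ℝ} (hS : S.PosDef) {ν : D → ℝ}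
    (hν : ∀ i, 0 ≤ ν i) {A : ∀ i, Matrix {a // blk a = i} {a // blk a = i} ℝ}
    (hA : ∀ i, (A i).PosSemidef) :
    ∏ i, ∫ x, (A i * sq blk i (symMat x)).trace ^ ν i ∂wishart α S
      ≤ ∫ x, ∏ i, (A i * sq blk i (symMat x)).trace ^ ν i ∂wishart α S := by
  have hm : ∀ i, Measurable fun x : Sym2 (Fin p) → ℝ =>
      (A i * sq blk i (symMat x)).trace ^ ν i := by
    intro i
    have : Measurable fun x : Sym2 (Fin p) → ℝ => (A i * sq blk i (symMat x)).trace :=
      Continuous.measurable (by fun_prop)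
    fun_prop
  have h0 : ∀ x ∈ posCone p, ∀ i, 0 ≤ (A i * sq blk i (symMat x)).trace := fun x hx i =>
    trace_nonneg' (hA i) ((PosDef.posSemidef hx).submatrix _)
  have h2 : ∀ i, ∫ x, (A i * sq blk i (symMat x)).trace ^ ν i ∂wishart α S = (∫⁻ x,
      ENNReal.ofReal ((A i * sq blk i (symMat x)).trace ^ ν i) ∂wishart α S).toReal := fun i =>
    integral_eq_lintegral_of_nonneg_ae ((ae_wishart α S).mono fun x hx =>
      Real.rpow_nonneg (h0 x hx i) _) (hm i).aestronglyMeasurable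
  have h3 : ∫ x, ∏ i, (A i * sq blk i (symMat x)).trace ^ ν i ∂wishart α S = (∫⁻ x, ∏ i,
      ENNReal.ofReal ((A i * sq blk i (symMat x)).trace ^ ν i) ∂wishart α S).toReal := by
    rw [integral_eq_lintegral_of_nonneg_ae ((ae_wishart α S).mono fun x hx =>
      Finset.prod_nonneg fun i _ => Real.rpow_nonneg (h0 x hx i) _)
      (Finset.measurable_prod _ fun i _ => hm i).aestronglyMeasurable]
    congr 1
    refine lintegral_congr_ae ((ae_wishart α S).mono fun x hx => ?_)
    simp only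
    rw [ENNReal.ofReal_prod_of_nonneg fun i _ => Real.rpow_nonneg (h0 x hx i) _]
  simp only [h2, h3]
  rw [← ENNReal.toReal_prod]
  exact ENNReal.toReal_mono (joint_ne_top hα hS hν (K := fun i => ∑ a, ∑ b, |A i a b|)
    (fun i => by positivity) h0 fun x hx i => trace_le _ _ (PosDef.posSemidef hx))
    (trace_lintegral hblk hα hS hν hA)

lemma exists_blk_equiv {d : ℕ} (q : Fin d → ℕ) (i : Fin d) :
    ∃ f : Fin (q i) ≃ {a // blkOf q a = i}, ∀ X : Matrix (Fin (∑ i, q i)) (Fin (∑ i, q i)) ℝ,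
      diagBlock q X i = (sq (blkOf q) i X).submatrix f f := by
  let f : Fin (q i) → {a // blkOf q a = i} := fun a => ⟨finSigmaFinEquiv ⟨i, a⟩, by simp [blkOf]⟩
  have hf : Function.Bijective f := by
    constructor
    · intro a b h
      have := finSigmaFinEquiv.injective (congrArg Subtype.val h)
      simpa using this
    · rintro ⟨k, hk⟩
      obtain ⟨⟨j, b⟩, rfl⟩ := finSigmaFinEquiv.surjective k
      simp only [blkOf, Equiv.symm_apply_apply] at hk
      subst hk
      exact ⟨b, rfl⟩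
  exact ⟨Equiv.ofBijective f hf, fun X => rfl⟩

lemma trace_reindex {B B' : Type} [Fintype B] [Fintype B'] (f : B ≃ B') (A : Matrix B B ℝ)
    (M : Matrix B' B' ℝ) :
    (A * M.submatrix f f).trace = (A.submatrix f.symm f.symm * M).trace := by
  simp only [trace, diag, mul_apply, submatrix_apply]
  rw [← f.sum_comp]
  refine Finset.sum_congr rfl fun a _ => ?_
  rw [← f.sum_comp]
  simp

end

end Pool.Agent.FS.WishTr
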